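import Pool.Agent.H334R2.CM.Defs
set_option autoImplicit false
open scoped Matrix MatrixGroups
universe u
namespace CM.DIV8

open Finset Module

/-- a map with square zero on a stable subspace has rank at most half the dimension -/
lemma rank_half {k V : Type*} [Field k] [AddCommGroup V] [Module k V] [FiniteDimensional k V]
    (f : V →ₗ[k] V) (M1 : Submodule k V) (h1 : M1.map f ≤ M1) (h2 : ∀ m ∈ M1, f (f m) = 0) :
    2 * finrank k (M1.map f) ≤ finrank k M1 := by
  have h3 := LinearMap.finrank_range_add_finrank_ker (f.domRestrict M1)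
  rw [LinearMap.range_domRestrict] at h3
  have h4 : M1.map f ≤ (LinearMap.ker (f.domRestrict M1)).map M1.subtype := by
    intro y hy
    obtain ⟨m, hm, rfl⟩ := hy
    rw [Submodule.mem_map]
    refine ⟨⟨f m, h1 ⟨m, hm, rfl⟩⟩, ?_, rfl⟩
    rw [LinearMap.mem_ker, LinearMap.domRestrict_apply]
    exact h2 m hm
  have h5 := Submodule.finrank_mono h4
  rw [Submodule.finrank_map_subtype_eq] at h5
  omega

section
variable {k : Type u} [Field k] {G : Type} [Group G] [Fintype G]

open Classical in
/-- the sum of the elements of a subgroup -/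
noncomputable def sg (k : Type u) [Field k] {G : Type} [Group G] [Fintype G] (Q : Subgroup G) :
    MonoidAlgebra k G :=
  ∑ g ∈ univ.filter (fun g => g ∈ Q), MonoidAlgebra.single g 1

omit [Fintype G] in
lemma add_self2 [CharP k 2] (a : MonoidAlgebra k G) : a + a = 0 := by
  rw [← two_smul k a, CharTwo.two_eq_zero, zero_smul]

lemma sg_bot : sg k (⊥ : Subgroup G) = 1 := by
  classical
  unfold sg
  have : univ.filter (fun g : G => g ∈ (⊥ : Subgroup G)) = {1} := by
    ext g
    simp [Subgroup.mem_bot]
  rw [this, sum_singleton]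
  rfl

lemma mul_sg (Q : Subgroup G) (g : G) (hg : g ∈ Q) :
    MonoidAlgebra.single g (1 : k) * sg k Q = sg k Q := by
  classical
  unfold sg
  rw [mul_sum]
  refine sum_bij' (fun x _ => g * x) (fun x _ => g⁻¹ * x) ?_ ?_ ?_ ?_ ?_
  · intro x hx
    rw [mem_filter] at hx ⊢
    exact ⟨mem_univ _, Q.mul_mem hg hx.2⟩
  · intro x hx
    rw [mem_filter] at hx ⊢
    exact ⟨mem_univ _, Q.mul_mem (Q.inv_mem hg) hx.2⟩
  · intro x _; simp
  · intro x _; simp
  · intro x _
    rw [MonoidAlgebra.single_mul_single, one_mul]

lemma sg_comm (Q : Subgroup G) (x : G) (hx : ∀ g, g ∈ Q ↔ x * g * x⁻¹ ∈ Q) :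
    MonoidAlgebra.single x (1 : k) * sg k Q = sg k Q * MonoidAlgebra.single x 1 := by
  classical
  unfold sg
  rw [mul_sum, sum_mul]
  refine sum_bij' (fun g _ => x * g * x⁻¹) (fun g _ => x⁻¹ * g * x) ?_ ?_ ?_ ?_ ?_
  · intro g hg
    rw [mem_filter] at hg ⊢
    exact ⟨mem_univ _, (hx g).1 hg.2⟩
  · intro g hg
    rw [mem_filter] at hg ⊢
    refine ⟨mem_univ _, (hx _).2 ?_⟩
    have : x * (x⁻¹ * g * x) * x⁻¹ = g := by group
    rw [this]; exact hg.2
  · intro g _; group
  · intro g _; group
  · intro g _
    rw [MonoidAlgebra.single_mul_single, MonoidAlgebra.single_mul_single]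
    congr 1
    group

lemma sg_two (Q P : Subgroup G) (hQP : Q ≤ P) (x : G)
    (hx : ∀ g, g ∈ P ↔ g ∈ Q ∨ x⁻¹ * g ∈ Q) (hx2 : ∀ g, g ∈ Q → x⁻¹ * g ∉ Q) :
    sg k P = (1 + MonoidAlgebra.single x 1) * sg k Q := by
  classical
  rw [add_mul, one_mul]
  unfold sg
  rw [← sum_filter_add_sum_filter_not (univ.filter (fun g => g ∈ P)) (fun g => g ∈ Q)]
  congr 1
  · apply sum_congr _ (fun _ _ => rfl)
    ext g
    simp only [mem_filter, mem_univ, true_and]
    exact ⟨fun h => h.2, fun h => ⟨hQP h, h⟩⟩
  · rw [mul_sum]
    refine sum_bij' (fun g _ => x⁻¹ * g) (fun g _ => x * g) ?_ ?_ ?_ ?_ ?_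
    · intro g hg
      simp only [mem_filter, mem_univ, true_and] at hg ⊢
      rcases (hx g).1 hg.1 with h | h
      · exact absurd h hg.2
      · exact h
    · intro g hg
      simp only [mem_filter, mem_univ, true_and] at hg ⊢
      have h1 : x⁻¹ * (x * g) ∈ Q := by
        have : x⁻¹ * (x * g) = g := by group
        rw [this]; exact hg
      exact ⟨(hx _).2 (Or.inr h1), fun h => hx2 _ h h1⟩
    · intro g _; group
    · intro g _; group
    · intro g _
      rw [MonoidAlgebra.single_mul_single, one_mul, mul_inv_cancel_left]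

/-- the rank of the sum of the elements of a `2`-subgroup on a left ideal -/
lemma key [CharP k 2] (n : ℕ) : ∀ P : Subgroup G, Nat.card P = 2 ^ n →
    ∀ M : Submodule k (MonoidAlgebra k G),
      (∀ g : G, ∀ m ∈ M, MonoidAlgebra.single g (1 : k) * m ∈ M) →
      2 ^ n * finrank k (M.map (LinearMap.mulLeft k (sg k P))) ≤ finrank k M := by
  induction n with
  | zero =>
    intro P hP M _
    rw [pow_zero] at hP
    have h1 : P = ⊥ := by
      rw [← Subgroup.card_eq_one]; exact hP
    rw [h1, sg_bot, pow_zero, one_mul]
    have : LinearMap.mulLeft k (1 : MonoidAlgebra k G) = LinearMap.id := by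
      ext; simp
    rw [this, Submodule.map_id]
  | succ n ih =>
    intro P hP M hM
    obtain ⟨K, hK⟩ := Sylow.exists_subgroup_card_pow_prime (G := P) 2 (n := n)
      (by rw [hP]; exact pow_dvd_pow 2 (Nat.le_succ n))
    have hidx : K.index = 2 := by
      have h1 := K.index_mul_card
      rw [hK, hP, pow_succ] at h1
      have h2 : 0 < 2 ^ n := by positivity
      nlinarith
    have hnorm : K.Normal := Subgroup.normal_of_index_eq_two hidx
    obtain ⟨y, hy⟩ : ∃ y : P, y ∉ K := by
      by_contra hcon
      push Not at hcon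
      have : K = ⊤ := by
        rw [eq_top_iff]; intro y _; exact hcon y
      rw [this, Subgroup.index_top] at hidx
      omega
    set Q : Subgroup G := K.map P.subtype with hQ
    have hQc : Nat.card Q = 2 ^ n := by
      rw [← hK]
      exact Nat.card_congr (K.equivMapOfInjective P.subtype P.subtype_injective).symm.toEquiv
    have hmemQ : ∀ z : P, (z : G) ∈ Q ↔ z ∈ K := by
      intro z
      rw [hQ, Subgroup.mem_map]
      constructor
      · rintro ⟨w, hw, hwz⟩
        have : w = z := P.subtype_injective hwz
        rw [← this]; exact hw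
      · intro hz
        exact ⟨z, hz, rfl⟩
    have hQP : Q ≤ P := by
      intro g hg
      rw [hQ, Subgroup.mem_map] at hg
      obtain ⟨w, _, rfl⟩ := hg
      exact w.2
    set x : G := (y : G) with hx
    have hxQ : x ∉ Q := by rw [hmemQ]; exact hy
    have hxx : x * x ∈ Q := by
      have h1 := (hmemQ (y * y)).2 (Subgroup.mul_self_mem_of_index_two hidx y)
      exact h1
    have hcomm : MonoidAlgebra.single x (1 : k) * sg k Q = sg k Q * MonoidAlgebra.single x 1 := by
      apply sg_comm
      intro g
      constructor
      · intro hg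
        have h1 : (⟨g, hQP hg⟩ : P) ∈ K := (hmemQ _).1 hg
        have h2 := hnorm.conj_mem _ h1 y
        exact (hmemQ _).2 h2
      · intro hg
        have hgP : g ∈ P := by
          have h3 : x⁻¹ * (x * g * x⁻¹) * x ∈ P :=
            P.mul_mem (P.mul_mem (P.inv_mem y.2) (hQP hg)) y.2
          have h4 : x⁻¹ * (x * g * x⁻¹) * x = g := by group
          rwa [h4] at h3
        have h1 : (y * ⟨g, hgP⟩ * y⁻¹ : P) ∈ K := (hmemQ _).1 hg
        have h2 := hnorm.conj_mem _ h1 y⁻¹
        have h3 : y⁻¹ * (y * ⟨g, hgP⟩ * y⁻¹) * y⁻¹⁻¹ = (⟨g, hgP⟩ : P) := by group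
        rw [h3] at h2
        exact (hmemQ _).2 h2
    have hsP : sg k P = (1 + MonoidAlgebra.single x 1) * sg k Q := by
      apply sg_two Q P hQP x
      · intro g
        constructor
        · intro hg
          by_cases hgK : (⟨g, hg⟩ : P) ∈ K
          · exact Or.inl ((hmemQ _).2 hgK)
          · right
            have h1 : (y⁻¹ * ⟨g, hg⟩ : P) ∈ K := by
              rw [Subgroup.mul_mem_iff_of_index_two hidx, inv_mem_iff]
              exact ⟨fun h => absurd h hy, fun h => absurd h hgK⟩
            exact (hmemQ _).2 h1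
        · rintro (h | h)
          · exact hQP h
          · have h1 : x * (x⁻¹ * g) ∈ P := P.mul_mem y.2 (hQP h)
            rwa [mul_inv_cancel_left] at h1
      · intro g hg h
        apply hxQ
        have h1 : g * (x⁻¹ * g)⁻¹ ∈ Q := Q.mul_mem hg (Q.inv_mem h)
        have h2 : g * (x⁻¹ * g)⁻¹ = x := by group
        rwa [h2] at h1
    have h1 := ih Q hQc M hM
    set M1 := M.map (LinearMap.mulLeft k (sg k Q)) with hM1
    have h2 : M.map (LinearMap.mulLeft k (sg k P)) =
        M1.map (LinearMap.mulLeft k (1 + MonoidAlgebra.single x 1)) := by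
      rw [hM1, ← Submodule.map_comp, hsP, LinearMap.mulLeft_mul]
    rw [h2]
    have h3 : 2 * finrank k (M1.map (LinearMap.mulLeft k (1 + MonoidAlgebra.single x 1))) ≤
        finrank k M1 := by
      apply rank_half
      · rintro z ⟨z', ⟨m, hm, rfl⟩, rfl⟩
        refine ⟨(1 + MonoidAlgebra.single x 1) * m, ?_, ?_⟩
        · rw [add_mul, one_mul]
          exact M.add_mem hm (hM x m hm)
        · have h5 : sg k Q * (1 + MonoidAlgebra.single x 1) =
              (1 + MonoidAlgebra.single x 1) * sg k Q := by
            rw [mul_add, add_mul, mul_one, one_mul, hcomm]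
          simp only [LinearMap.mulLeft_apply]
          rw [← mul_assoc, ← mul_assoc, h5]
      · rintro z ⟨m, _, rfl⟩
        simp only [LinearMap.mulLeft_apply]
        rw [← mul_assoc, ← mul_assoc]
        have h4 : (1 + MonoidAlgebra.single x (1 : k)) * (1 + MonoidAlgebra.single x 1) *
            sg k Q = 0 := by
          have h5 : (1 + MonoidAlgebra.single x (1 : k)) * (1 + MonoidAlgebra.single x 1) =
              1 + MonoidAlgebra.single (x * x) 1 := by
            have h6 : MonoidAlgebra.single x (1 : k) + MonoidAlgebra.single x 1 = 0 :=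
              add_self2 _
            rw [add_mul, one_mul, mul_add, mul_one, MonoidAlgebra.single_mul_single, one_mul]
            rw [add_assoc, ← add_assoc (MonoidAlgebra.single x (1 : k)), h6, zero_add]
          rw [h5, add_mul, one_mul, mul_sg Q _ hxx]
          exact add_self2 _
        rw [h4, zero_mul]
    calc 2 ^ (n + 1) * finrank k (M1.map (LinearMap.mulLeft k (1 + MonoidAlgebra.single x 1)))
        = 2 ^ n * (2 * finrank k (M1.map (LinearMap.mulLeft k
            (1 + MonoidAlgebra.single x 1)))) := by ring
      _ ≤ 2 ^ n * finrank k M1 := Nat.mul_le_mul_left _ h3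
      _ ≤ finrank k M := h1

end

end CM.DIV8

namespace CM

open Module CM.DIV8

/-- the dimension of a projective module is divisible by the order of a Sylow subgroup -/
theorem DIV8 {k : Type u} [Field k] [CharP k 2] {G : Type} [Group G] [Finite G] (P : Subgroup G)
    (hP : Nat.card P = 8) (e : MonoidAlgebra k G) (he : e * e = e) :
    8 ∣ Module.finrank k (cor k (1 : MonoidAlgebra k G) e) := by
  classical
  have : Fintype G := Fintype.ofFinite G
  set s := sg k P with hs
  set R := LinearMap.mulRight k e with hR
  have hfin : finrank k (MonoidAlgebra k G) = Nat.card G :=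
    finrank_eq_nat_card_basis (MonoidAlgebra.basis G k)
  -- the module
  have hcor : cor k (1 : MonoidAlgebra k G) e = LinearMap.range R := by
    ext x
    rw [mem_cor, LinearMap.mem_range]
    constructor
    · rintro ⟨_, h⟩
      exact ⟨x, h⟩
    · rintro ⟨y, rfl⟩
      refine ⟨one_mul _, ?_⟩
      rw [hR, LinearMap.mulRight_apply, mul_assoc, he]
  rw [hcor]
  have h8 : Nat.card P = 2 ^ 3 := by rw [hP]; norm_num
  have k1 := key (k := k) 3 P h8 (LinearMap.range R) (by
    rintro g _ ⟨y, rfl⟩
    exact ⟨MonoidAlgebra.single g 1 * y, by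
      simp only [hR, LinearMap.mulRight_apply, mul_assoc]⟩)
  have k2 := key (k := k) 3 P h8 (LinearMap.ker R) (by
    intro g y hy
    rw [LinearMap.mem_ker] at hy ⊢
    rw [hR, LinearMap.mulRight_apply] at hy ⊢
    rw [mul_assoc, hy, mul_zero])
  rw [← hs] at k1 k2
  have k3 := LinearMap.finrank_range_add_finrank_ker R
  rw [hfin] at k3
  -- the image of s
  set S := LinearMap.range (LinearMap.mulLeft k s) with hS
  have k4 : finrank k S = finrank k ((LinearMap.range R).map (LinearMap.mulLeft k s)) +
      finrank k ((LinearMap.ker R).map (LinearMap.mulLeft k s)) := by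
    have h1 := LinearMap.finrank_range_add_finrank_ker (R.domRestrict S)
    rw [LinearMap.range_domRestrict] at h1
    have h2 : S.map R = (LinearMap.range R).map (LinearMap.mulLeft k s) := by
      rw [hS, ← LinearMap.range_comp, ← LinearMap.range_comp]
      congr 1
      ext g : 2
      simp [hR, mul_assoc]
    have h3 : finrank k (LinearMap.ker (R.domRestrict S)) =
        finrank k ((LinearMap.ker R).map (LinearMap.mulLeft k s)) := by
      rw [← Submodule.finrank_map_subtype_eq S (LinearMap.ker (R.domRestrict S))]
      have heq : Submodule.map S.subtype (LinearMap.ker (R.domRestrict S)) =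
          Submodule.map (LinearMap.mulLeft k s) (LinearMap.ker R) := ?_
      · rw [heq]
      apply le_antisymm
      · rintro z ⟨w, hw, rfl⟩
        obtain ⟨z, hz⟩ := w
        obtain ⟨a, rfl⟩ := hz
        change R.domRestrict S _ = 0 at hw
        rw [LinearMap.domRestrict_apply] at hw
        simp only [hR, LinearMap.mulRight_apply, LinearMap.mulLeft_apply] at hw
        refine ⟨a - a * e, ?_, ?_⟩
        · change R _ = 0
          rw [hR, LinearMap.mulRight_apply, sub_mul, mul_assoc, he, sub_self]
        · simp only [LinearMap.mulLeft_apply, Submodule.subtype_apply]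
          rw [mul_sub, ← mul_assoc, hw, sub_zero]
      · rintro z ⟨a, ha, rfl⟩
        change R a = 0 at ha
        rw [hR, LinearMap.mulRight_apply] at ha
        refine ⟨⟨s * a, ⟨a, rfl⟩⟩, ?_, rfl⟩
        change R.domRestrict S _ = 0
        rw [LinearMap.domRestrict_apply]
        simp only [hR, LinearMap.mulRight_apply]
        rw [mul_assoc, ha, mul_zero]
    rw [h2, h3] at h1
    exact h1.symm
  -- the dimension of the image
  have k5 : Nat.card (G ⧸ P) ≤ finrank k S := by
    set v : G ⧸ P → S := fun q => ⟨s * MonoidAlgebra.single (Quotient.out q)⁻¹ 1,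
      ⟨MonoidAlgebra.single (Quotient.out q)⁻¹ 1, rfl⟩⟩ with hv
    have hlin : LinearIndependent k v := by
      rw [linearIndependent_iff']
      intro t c hc q hq
      have h1 : (∑ i ∈ t, c i • (v i : MonoidAlgebra k G)) = 0 := by
        have := congrArg (Submodule.subtype S) hc
        simpa using this
      have h2 := congrArg (fun z : MonoidAlgebra k G => z.coeff (Quotient.out q)⁻¹) h1
      simp only [MonoidAlgebra.coeff_sum, Finsupp.finsetSum_apply,
        MonoidAlgebra.coeff_smul_apply, MonoidAlgebra.coeff_zero, Finsupp.zero_apply] at h2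
      rw [Finset.sum_eq_single q] at h2
      · have h3 : (v q : MonoidAlgebra k G).coeff (Quotient.out q)⁻¹ = 1 := by
          simp only [hv, hs, sg]
          rw [MonoidAlgebra.coeff_mul_single_apply, inv_inv, inv_mul_cancel, mul_one,
            MonoidAlgebra.coeff_sum, Finsupp.finsetSum_apply, Finset.sum_eq_single 1]
          · simp
          · intro g _ hg
            simp [hg]
          · intro h
            exact absurd (by simp) h
        rw [h3, smul_eq_mul, mul_one] at h2
        exact h2
      · intro i _ hi
        have h3 : (v i : MonoidAlgebra k G).coeff (Quotient.out q)⁻¹ = 0 := by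
          simp only [hv, hs, sg]
          rw [MonoidAlgebra.coeff_mul_single_apply, inv_inv, mul_one,
            MonoidAlgebra.coeff_sum, Finsupp.finsetSum_apply]
          apply Finset.sum_eq_zero
          intro g hg
          rw [Finset.mem_filter] at hg
          rw [MonoidAlgebra.coeff_single, Finsupp.single_apply, if_neg]
          intro h4
          apply hi
          have h5 : (Quotient.out q)⁻¹ * Quotient.out i ∈ P := by rw [← h4]; exact hg.2
          have h6 := (QuotientGroup.eq (s := P)).2 h5
          have e1 : (QuotientGroup.mk (Quotient.out q) : G ⧸ P) = q := Quotient.out_eq q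
          have e2 : (QuotientGroup.mk (Quotient.out i) : G ⧸ P) = i := Quotient.out_eq i
          rw [e1, e2] at h6
          exact h6.symm
        rw [h3, smul_zero]
      · intro h
        exact absurd hq h
    have h7 := hlin.fintype_card_le_finrank
    rw [Nat.card_eq_fintype_card]
    exact h7
  have k6 : Nat.card G = Nat.card (G ⧸ P) * 8 := by
    rw [← hP]
    exact Subgroup.card_eq_card_quotient_mul_card_subgroup P
  have k7 : finrank k (LinearMap.range R) =
      8 * finrank k ((LinearMap.range R).map (LinearMap.mulLeft k s)) := by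
    norm_num at k1 k2
    omega
  rw [k7]
  exact dvd_mul_right _ _

end CM
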